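import Pool.Agent.W712.WR.All
import Pool.Agent.Y614.WR.Unif

/-!
Uniform permanence of all variable-k weakly reversible systems, in every dimension: the absorbing
compact set is forward invariant and serves a whole compact family of classes, and the absorbing
time is uniform in the rates, in the starting time and in the starting point on compact sets.
-/

set_option autoImplicit false

namespace Pool.Agent.Results.MP_5f8094_an.UniformPermanence

/-- The right-hand side of the system generated by the edge set `E` (an edge is a pair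
(source, target) of real vectors) with the rates `k`, at the point `x`. -/
noncomputable def field {n : ℕ} (E : Finset ((Fin n → ℝ) × (Fin n → ℝ)))
    (k : (Fin n → ℝ) × (Fin n → ℝ) → ℝ) (x : Fin n → ℝ) : Fin n → ℝ :=
  ∑ e ∈ E, (k e * ∏ i, x i ^ (e.1 i)) • (e.2 - e.1)

/-- Every edge of `E` lies on a directed cycle: its source can be reached from its target. -/
def WeaklyReversible {n : ℕ} (E : Finset ((Fin n → ℝ) × (Fin n → ℝ))) : Prop :=
  ∀ e ∈ E, Relation.ReflTransGen (fun u v => (u, v) ∈ E) e.2 e.1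

/-- The rates take values in `[ε, 1/ε]` on the edges. Measurability is not part of this. -/
def Rates {n : ℕ} (E : Finset ((Fin n → ℝ) × (Fin n → ℝ))) (ε : ℝ)
    (k : (Fin n → ℝ) × (Fin n → ℝ) → ℝ → ℝ) : Prop :=
  ∀ e ∈ E, ∀ t : ℝ, ε ≤ k e t ∧ k e t ≤ 1 / ε

/-- `x` is a solution on `J` of the variable-`k` system: positive, absolutely continuous on the
compact subintervals, and satisfying the differential equation at almost every time of `J`. -/
structure IsSolution {n : ℕ} (E : Finset ((Fin n → ℝ) × (Fin n → ℝ)))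
    (k : (Fin n → ℝ) × (Fin n → ℝ) → ℝ → ℝ) (x : ℝ → Fin n → ℝ) (J : Set ℝ) : Prop where
  pos : ∀ t ∈ J, ∀ i, 0 < x t i
  ac : ∀ a ∈ J, ∀ b ∈ J, a ≤ b → AbsolutelyContinuousOnInterval x a b
  ode : ∀ᵐ t, t ∈ J → HasDerivAt x (field E (fun e => k e t) (x t)) t

/-- The class `S_{x₀}`: the positive vectors `z` with `z - x₀` in the span of the edge vectors. -/
def compatClass {n : ℕ} (E : Finset ((Fin n → ℝ) × (Fin n → ℝ))) (x₀ : Fin n → ℝ) :
    Set (Fin n → ℝ) :=
  {z | (∀ i, 0 < z i) ∧ z - x₀ ∈ Submodule.span ℝ {v | ∃ e ∈ E, v = e.2 - e.1}}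

/-- Let `E` be a finite weakly reversible edge set in `ℝⁿ` and `ε > 0`.
(1) For every compact set `C₀` of positive vectors there is a compact convex set `K ⊇ C₀` of
positive vectors which meets every class of a point of `C₀` in a compact set, which no solution
(for any rates with values in `[ε, 1/ε]`, on any interval) leaves in forward time, and such that
for every compact set `C` contained in the union of the classes of the points of `C₀` there is one
time `τ` for which every solution (same generality) that is in `C` at some time `s` is in `K` at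
all times `t ≥ s + τ` of its interval.
(2) Solutions stay in their class.
(3) For measurable rates with values in `[ε, 1/ε]` every positive vector is the value at `0` of a
solution on `[0, ∞)`, and every solution on an interval containing `0` has exactly one extension
to a solution on the union of the interval with `[0, ∞)`. -/
theorem result (n : ℕ) (E : Finset ((Fin n → ℝ) × (Fin n → ℝ))) (hE : WeaklyReversible E)
    (ε : ℝ) (hε : 0 < ε) :
    (∀ C₀ : Set (Fin n → ℝ), IsCompact C₀ → (∀ x ∈ C₀, ∀ i, 0 < x i) →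
      ∃ K : Set (Fin n → ℝ), IsCompact K ∧ Convex ℝ K ∧ (∀ x ∈ K, ∀ i, 0 < x i) ∧ C₀ ⊆ K ∧
        (∀ x₀ ∈ C₀, IsCompact (K ∩ compatClass E x₀)) ∧
        (∀ k : (Fin n → ℝ) × (Fin n → ℝ) → ℝ → ℝ, Rates E ε k →
          ∀ (J : Set ℝ) (x : ℝ → Fin n → ℝ), J.OrdConnected → IsSolution E k x J →
          ∀ s ∈ J, x s ∈ K → ∀ t ∈ J, s ≤ t → x t ∈ K) ∧
        ∀ C : Set (Fin n → ℝ), IsCompact C → (∀ z ∈ C, ∃ x₀ ∈ C₀, z ∈ compatClass E x₀) →
          ∃ τ : ℝ, 0 < τ ∧ ∀ k : (Fin n → ℝ) × (Fin n → ℝ) → ℝ → ℝ, Rates E ε k →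
            ∀ (J : Set ℝ) (x : ℝ → Fin n → ℝ), J.OrdConnected → IsSolution E k x J →
            ∀ s ∈ J, x s ∈ C → ∀ t ∈ J, s + τ ≤ t → x t ∈ K) ∧
    (∀ (x₀ : Fin n → ℝ) (k : (Fin n → ℝ) × (Fin n → ℝ) → ℝ → ℝ) (J : Set ℝ)
      (x : ℝ → Fin n → ℝ), J.OrdConnected → IsSolution E k x J →
      ∀ s ∈ J, x s ∈ compatClass E x₀ → ∀ t ∈ J, s ≤ t → x t ∈ compatClass E x₀) ∧
    (∀ k : (Fin n → ℝ) × (Fin n → ℝ) → ℝ → ℝ, (∀ e ∈ E, Measurable (k e)) → Rates E ε k →
      (∀ z : Fin n → ℝ, (∀ i, 0 < z i) → ∃ y : ℝ → Fin n → ℝ,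
        y 0 = z ∧ IsSolution E k y (Set.Ici 0)) ∧
      ∀ (J : Set ℝ) (x : ℝ → Fin n → ℝ), J.OrdConnected → (0 : ℝ) ∈ J → IsSolution E k x J →
        ∃ y : ℝ → Fin n → ℝ, IsSolution E k y (J ∪ Set.Ici 0) ∧ (∀ t ∈ J, y t = x t) ∧
          ∀ y' : ℝ → Fin n → ℝ, IsSolution E k y' (J ∪ Set.Ici 0) → (∀ t ∈ J, y' t = x t) →
            ∀ t ∈ J ∪ Set.Ici 0, y' t = y t) := by
  have fwd : ∀ (k : (Fin n → ℝ) × (Fin n → ℝ) → ℝ → ℝ) (x : ℝ → Fin n → ℝ) (J : Set ℝ),
      IsSolution E k x J → W712.WR.IsSol E k x J := fun k x J h => ⟨h.pos, h.ac, h.ode⟩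
  have back : ∀ (k : (Fin n → ℝ) × (Fin n → ℝ) → ℝ → ℝ) (x : ℝ → Fin n → ℝ) (J : Set ℝ),
      W712.WR.IsSol E k x J → IsSolution E k x J := fun k x J h => ⟨h.pos, h.ac, h.ode⟩
  refine ⟨fun C₀ hC₀ hp => ?_, ?_, ?_⟩
  · obtain ⟨K, h1, h2, h3, h4, h5, h6, h7⟩ :=
      Y614.WR.Unif.unif W712.WR.field' W712.WR.noExitAC' E hE ε hε C₀ hC₀ hp
    refine ⟨K, h1, h2, h3, h4, h5, ?_, ?_⟩
    · intro k hk J x hJ hx
      exact h6 k hk J x hJ (fwd _ _ _ hx)
    · intro C hC hCC
      obtain ⟨τ, hτ, H⟩ := h7 C hC hCC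
      exact ⟨τ, hτ, fun k hk J x hJ hx => H k hk J x hJ (fwd _ _ _ hx)⟩
  · intro x₀ k J x hJ hx s hs hxs t ht hst
    exact Y614.WR.Unif.in_cls' x₀ k J hJ x (fwd _ _ _ hx) hs ht hst hxs
  · intro k hm hk
    refine ⟨?_, ?_⟩
    · intro z hz
      obtain ⟨y, hy0, hy, _⟩ := Y614.WR.Unif.wellposed W712.WR.field' W712.WR.noExitAC'
        W712.WR.cara' W712.WR.uniq' E hE ε hε k hm hk z hz
      exact ⟨y, hy0, back _ _ _ hy⟩
    · intro J x hJ h0 hx
      have hx' := fwd _ _ _ hx
      obtain ⟨y, hy0, hy, hu⟩ := Y614.WR.Unif.wellposed W712.WR.field' W712.WR.noExitAC'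
        W712.WR.cara' W712.WR.uniq' E hE ε hε k hm hk (x 0) (hx.pos 0 h0)
      -- the forward part
      have hfor : W712.WR.IsSol E k x (J ∩ Set.Ici 0) := by
        refine ⟨fun t ht => hx'.pos t ht.1, fun a ha b hb hab => hx'.ac a ha.1 b hb.1 hab, ?_⟩
        filter_upwards [hx'.ode] with t ht htJ
        exact ht htJ.1
      have hyx : ∀ t ∈ J ∩ Set.Ici 0, y t = x t :=
        hu (J ∩ Set.Ici 0) x (hJ.inter Set.ordConnected_Ici) ⟨h0, Set.mem_Ici.2 le_rfl⟩
          Set.inter_subset_right hfor rfl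
      refine ⟨fun t => if t < 0 then x t else y t,
        back _ _ _ (W712.WR.sol_glue hJ h0 hx' hy hy0.symm), ?_, ?_⟩
      · intro t ht
        by_cases htn : t < 0
        · simp [htn]
        · simp only [htn, if_false]
          exact hyx t ⟨ht, not_lt.1 htn⟩
      · intro y' hy' hy'x t ht
        have hy'' := fwd _ _ _ hy'
        have hIci : W712.WR.IsSol E k y' (Set.Ici 0) := by
          refine ⟨fun t ht => hy''.pos t (Or.inr ht),
            fun a ha b hb hab => hy''.ac a (Or.inr ha) b (Or.inr hb) hab, ?_⟩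
          filter_upwards [hy''.ode] with t ht htJ
          exact ht (Or.inr htJ)
        by_cases htn : t < 0
        · have htJ : t ∈ J := ht.resolve_right (not_le.2 htn)
          simp only [htn, if_true]
          exact hy'x t htJ
        · simp only [htn, if_false]
          exact (hu (Set.Ici 0) y' Set.ordConnected_Ici (Set.mem_Ici.2 le_rfl) subset_rfl hIci
            (hy'x 0 h0) t (not_lt.1 htn)).symm

end Pool.Agent.Results.MP_5f8094_an.UniformPermanence
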